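import Pool.Agent.Q275.RT.All

/-!
# MP_60b32f_nt: partitions into distinct primes with maximal product and with maximal length

`D(n)` is unbounded: for every `C` there is an `n` such that the partition of `n` into distinct primes
which has the largest product has more than `C` parts fewer than the longest partition of `n` into
distinct primes.
-/

set_option autoImplicit false

namespace Pool.Agent.Results.MP_60b32f_nt.UnboundedDifference

open Finset

/-- The finite set `S` of primes is a partition of `n` into distinct primes. -/
def IsPartition (n : ℕ) (S : Finset ℕ) : Prop := (∀ p ∈ S, p.Prime) ∧ ∑ p ∈ S, p = n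

/-- For every `C` there are an integer `n ≥ 2`, a partition `S` of `n` into distinct primes with the largest
possible number of parts, and the partition `T` of `n` into distinct primes whose product is larger than
that of all others, such that `|S| - |T| > C`. -/
theorem result : ∀ C : ℕ, ∃ n : ℕ, 2 ≤ n ∧ ∃ S T : Finset ℕ, IsPartition n S ∧ IsPartition n T ∧
    (∀ U, IsPartition n U → U.card ≤ S.card) ∧
    (∀ U, IsPartition n U → U ≠ T → ∏ p ∈ U, p < ∏ p ∈ T, p) ∧
    T.card + C < S.card := by
  intro C
  obtain ⟨n, S, T, hS, hT, h1, h2, h3⟩ := Pool.Agent.Q275.RT.t_MAIN C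
  refine ⟨n, ?_, S, T, hS, hT, h1, h2, h3⟩
  obtain ⟨p, hp⟩ := card_pos.1 (by omega : 0 < S.card)
  have h4 := (hS.1 p hp).two_le
  have h5 := Pool.Agent.Q275.RT.le_of_sum hp
  rw [hS.2] at h5
  omega

end Pool.Agent.Results.MP_60b32f_nt.UnboundedDifference
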